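import Pool.Agent.N977.P.Stm

/-!
The perturbation built from packets: smoothness, test formula, Fourier coefficients.
-/

open MeasureTheory Set Filter Topology
open scoped ContDiff

namespace Pool.Agent.N79.NSP

open H459R3.NS Pool.Agent.N977.Q

variable {ι : Type*}

/-- a series of cosines -/
noncomputable def Fc (w : ι → ℝ) (κ : ι → K3) (x : V) : ℝ :=
  ∑' i, w i * Real.cos (2 * Real.pi * ph (κ i) x)

/-- rapidly decreasing coefficients -/
def Rw (w : ι → ℝ) (κ : ι → K3) : Prop :=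
  ∀ m : ℕ, Summable fun i => (H459R3.NS.N (κ i) : ℝ) ^ m * |w i|

variable {w : ι → ℝ} {κ : ι → K3}

theorem Rw.s0 (h : Rw w κ) : Summable fun i => |w i| := by
  simpa using h 0

theorem cos_cont (k : K3) : Continuous fun x : V => Real.cos (2 * Real.pi * ph k x) := by
  have := (ph_contDiff k (n := 0)).continuous
  fun_prop

theorem cos_per (k : K3) : Per fun x : V => Real.cos (2 * Real.pi * ph k x) := by
  intro i x
  simp only
  rw [ph_add, ph_single, mul_one, mul_add]
  have : 2 * Real.pi * ph k x + 2 * Real.pi * (k i : ℝ)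
      = 2 * Real.pi * ph k x + (k i : ℤ) * (2 * Real.pi) := by ring
  rw [this, Real.cos_add_int_mul_two_pi]

theorem Fc_per (w : ι → ℝ) (κ : ι → K3) : Per (Fc w κ) := by
  intro i x
  unfold Fc
  refine tsum_congr fun j => ?_
  have h := cos_per (κ j) i x
  simp only at h
  rw [h]

theorem norm_lf_le (k : K3) : ‖lf k‖ ≤ 24 * H459R3.NS.N k := by
  unfold lf
  refine (norm_sum_le _ _).trans ?_
  have h : ∀ j : Fin 3, ‖(2 * Real.pi * (k j : ℝ)) •
      ContinuousLinearMap.proj (R := ℝ) (φ := fun _ : Fin 3 => ℝ) j‖ ≤ 8 * H459R3.NS.N k := by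
    intro j
    have h1 : ‖ContinuousLinearMap.proj (R := ℝ) (φ := fun _ : Fin 3 => ℝ) j‖ ≤ 1 := by
      refine ContinuousLinearMap.opNorm_le_bound _ zero_le_one fun x => ?_
      rw [one_mul]
      exact norm_le_pi_norm x j
    have h2 := (N_le_iff k (H459R3.NS.N k)).1 le_rfl j
    have h3 : |(k j : ℝ)| ≤ H459R3.NS.N k := by exact_mod_cast h2
    rw [norm_smul, Real.norm_eq_abs, abs_mul, abs_mul, abs_of_pos Real.pi_pos,
      abs_of_pos (by norm_num : (0 : ℝ) < 2)]
    have h4 := Real.pi_le_four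
    have h5 := Real.pi_pos
    calc 2 * Real.pi * |(k j : ℝ)| * _ ≤ 2 * 4 * (H459R3.NS.N k : ℝ) * 1 := by
          apply mul_le_mul _ h1 (norm_nonneg _) (by positivity)
          apply mul_le_mul _ h3 (abs_nonneg _) (by positivity)
          linarith
      _ = _ := by ring
  refine (Finset.sum_le_sum fun j _ => h j).trans ?_
  simp only [Fin.sum_univ_three]
  linarith

theorem norm_iter_cos (k : K3) (m : ℕ) (x : V) :
    ‖iteratedFDeriv ℝ m (fun x : V => Real.cos (2 * Real.pi * ph k x)) x‖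
      ≤ 24 ^ m * (H459R3.NS.N k : ℝ) ^ m := by
  have e : (fun x : V => Real.cos (2 * Real.pi * ph k x)) = Real.cos ∘ (lf k) := by
    funext x
    simp only [Function.comp, lf_apply]
  rw [e, (lf k).iteratedFDeriv_comp_right (Real.contDiff_cos (n := m)) x le_rfl]
  refine (ContinuousMultilinearMap.norm_compContinuousLinearMap_le _ _).trans ?_
  rw [norm_iteratedFDeriv_eq_norm_iteratedDeriv, Finset.prod_const, Finset.card_univ,
    Fintype.card_fin, Real.norm_eq_abs, ← mul_pow]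
  calc _ ≤ 1 * (24 * (H459R3.NS.N k : ℝ)) ^ m := by
        apply mul_le_mul (Real.abs_iteratedDeriv_cos_le_one m _)
          (pow_le_pow_left₀ (norm_nonneg _) (norm_lf_le k) m) (by positivity) zero_le_one
    _ = _ := one_mul _

theorem Fc_smooth (h : Rw w κ) : ContDiff ℝ ∞ (Fc w κ) := by
  have hc : ∀ k : K3, ContDiff ℝ ∞ fun x : V => Real.cos (2 * Real.pi * ph k x) := fun k =>
    Real.contDiff_cos.comp (contDiff_const.mul (ph_contDiff k))
  unfold Fc
  refine contDiff_tsum (v := fun m i => 24 ^ m * ((H459R3.NS.N (κ i) : ℝ) ^ m * |w i|))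
    (fun i => contDiff_const.mul (hc (κ i))) (fun m _ => (h m).mul_left _) fun m i x _ => ?_
  have e : (fun x : V => w i * Real.cos (2 * Real.pi * ph (κ i) x))
      = w i • fun x : V => Real.cos (2 * Real.pi * ph (κ i) x) := by
    funext x
    simp
  rw [e, iteratedFDeriv_const_smul_apply ((hc (κ i)).contDiffAt.of_le (by exact_mod_cast le_top)),
    norm_smul, Real.norm_eq_abs]
  calc |w i| * _ ≤ |w i| * (24 ^ m * (H459R3.NS.N (κ i) : ℝ) ^ m) :=
        mul_le_mul_of_nonneg_left (norm_iter_cos _ _ _) (abs_nonneg _)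
    _ = _ := by ring

theorem Fc_sp (h : Rw w κ) : SP (Fc w κ) := ⟨Fc_smooth h, Fc_per w κ⟩

theorem Fc_test {E : Type*} [NormedAddCommGroup E] [NormedSpace ℝ E] [CompleteSpace E]
    [Countable ι] (h : Rw w κ) {f : V → E} (hf : Continuous f) :
    HasSum (fun i => w i • ∫ x in cube, Real.cos (2 * Real.pi * ph (κ i) x) • f x)
      (∫ x in cube, Fc w κ x • f x) := by
  have hint : ∀ i, Integrable (fun x => w i • (Real.cos (2 * Real.pi * ph (κ i) x) • f x))
      (volume.restrict cube) := fun i =>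
    integrableOn_cube (continuous_const.smul ((cos_cont _).smul hf))
  have hhi : IntegrableOn (fun x => ‖f x‖) cube := integrableOn_cube hf.norm
  have hs : Summable fun i => ∫ x in cube,
      ‖w i • (Real.cos (2 * Real.pi * ph (κ i) x) • f x)‖ := by
    refine Summable.of_nonneg_of_le (f := fun i => |w i| * ∫ x in cube, ‖f x‖)
      (fun n => integral_nonneg fun x => norm_nonneg _) (fun i => ?_) (h.s0.mul_right _)
    rw [← integral_const_mul]
    refine integral_mono (hint i).norm (hhi.const_mul _) fun x => ?_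
    simp only [norm_smul, Real.norm_eq_abs]
    have := Real.abs_cos_le_one (2 * Real.pi * ph (κ i) x)
    have h2 : |Real.cos (2 * Real.pi * ph (κ i) x)| * ‖f x‖ ≤ ‖f x‖ :=
      (mul_le_mul_of_nonneg_right this (norm_nonneg _)).trans (by rw [one_mul])
    exact mul_le_mul_of_nonneg_left h2 (abs_nonneg _)
  have key := hasSum_integral_of_summable_integral_norm hint hs
  have e1 : ∀ i, ∫ x in cube, w i • (Real.cos (2 * Real.pi * ph (κ i) x) • f x)
      = w i • ∫ x in cube, Real.cos (2 * Real.pi * ph (κ i) x) • f x := fun i =>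
    integral_smul _ _
  simp_rw [e1] at key
  have hsx : ∀ x, Summable fun i => w i * Real.cos (2 * Real.pi * ph (κ i) x) := fun x =>
    Summable.of_norm_bounded (g := fun i => |w i|) h.s0 fun i => by
      rw [norm_mul, Real.norm_eq_abs, Real.norm_eq_abs]
      exact (mul_le_mul_of_nonneg_left (Real.abs_cos_le_one _) (abs_nonneg _)).trans
        (by rw [mul_one])
  have e : (∫ x in cube, ∑' i, w i • (Real.cos (2 * Real.pi * ph (κ i) x) • f x))
      = ∫ x in cube, Fc w κ x • f x := by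
    congr 1
    funext x
    unfold Fc
    rw [← (hsx x).tsum_smul_const (f x)]
    exact tsum_congr fun i => smul_smul _ _ _
  rwa [e] at key

theorem int_cos_ee (l k : K3) :
    ∫ x in cube, Real.cos (2 * Real.pi * ph l x) • ee (-k) x
      = (if l = k then (1 / 2 : ℂ) else 0) + if l = -k then (1 / 2 : ℂ) else 0 := by
  have e : ∀ x, Real.cos (2 * Real.pi * ph l x) • ee (-k) x
      = (1 / 2 : ℂ) * ee (l - k) x + (1 / 2 : ℂ) * ee (-l - k) x := by
    intro x
    rw [sub_eq_add_neg, sub_eq_add_neg, ee_add_left, ee_add_left, Complex.real_smul,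
      Complex.ofReal_cos, Complex.cos]
    unfold ee
    rw [ph_neg l]
    push_cast
    have a1 : (2 * (Real.pi : ℂ) * (ph l x : ℂ)) * Complex.I
        = 2 * Real.pi * Complex.I * (ph l x : ℂ) := by ring
    have a2 : -(2 * (Real.pi : ℂ) * (ph l x : ℂ)) * Complex.I
        = 2 * Real.pi * Complex.I * (-(ph l x : ℂ)) := by ring
    rw [a1, a2]
    ring
  simp_rw [e]
  rw [integral_add ((integrableOn_cube (ee_continuous _)).const_mul _)
    ((integrableOn_cube (ee_continuous _)).const_mul _), integral_const_mul, integral_const_mul,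
    integral_ee, integral_ee]
  have b1 : (l - k = 0) ↔ l = k := sub_eq_zero
  have b2 : (-l - k = 0) ↔ l = -k := by
    constructor
    · intro h
      have : l = -k - (-l - k) := by abel
      rw [this, h]; abel
    · intro h
      rw [h]; abel
  simp only [b1, b2]
  split_ifs <;> simp

theorem Fc_fr [Countable ι] (h : Rw w κ) (k : K3) :
    HasSum (fun i => w i • ((if κ i = k then (1 / 2 : ℂ) else 0)
      + if κ i = -k then (1 / 2 : ℂ) else 0)) (fr (Fc w κ) k) := by
  have h1 := Fc_test h (ee_continuous (-k))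
  simp_rw [int_cos_ee] at h1
  have e : (∫ x in cube, Fc w κ x • ee (-k) x) = fr (Fc w κ) k := by
    unfold fr fc
    congr 1
    funext x
    rw [Complex.real_smul, mul_comm]
  rwa [e] at h1

/-! ### packets -/

open Pool.Agent.N977.S Pool.Agent.N977.P

variable {J : ℕ → ℕ} {G : Fin 2 → ℕ → K3 → ℝ} {α μ : ℕ → ℝ} {u v : V → V}

theorem M8 (n : ℕ) : (8 : ℝ) ≤ Mn 8 n := by
  unfold Mn
  push_cast
  have : (1 : ℝ) ≤ 2 ^ n := one_le_pow₀ (by norm_num)
  linarith

theorem J_le (hG : Pk J G) (n : ℕ) : (J n : ℝ) ≤ Mn 8 n := by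
  have h1 := hG.J2 n
  have h2 := M8 n
  linarith

theorem len_qq (e : Fin 2) (n : ℕ) :
    4 * (Mn 8 n : ℝ) ^ 2 ≤ len (qq e n) ^ 2 ∧ len (qq e n) ^ 2 ≤ 5 * (Mn 8 n : ℝ) ^ 2 := by
  unfold qq
  rw [len_smul, mul_pow]
  have h1 : 4 ≤ len (dv e) ^ 2 ∧ len (dv e) ^ 2 ≤ 5 := by
    rw [len_sq]
    fin_cases e <;> simp [dv, ev, Fin.sum_univ_three] <;> norm_num
  constructor <;> nlinarith [h1.1, h1.2, sq_nonneg (Mn 8 n : ℝ)]

theorem N_le_len (k : K3) : (H459R3.NS.N k : ℝ) ≤ len k := by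
  obtain ⟨j, -, hj⟩ := Finset.exists_mem_eq_sup (Finset.univ : Finset (Fin 3))
      ⟨0, Finset.mem_univ 0⟩ (fun j => (k j).natAbs)
  have h1 : (H459R3.NS.N k : ℝ) = |(k j : ℝ)| := by
    unfold H459R3.NS.N
    rw [hj, ← Int.cast_abs, Int.abs_eq_natAbs]
    simp
  rw [h1]
  unfold len
  apply Real.le_sqrt_of_sq_le
  rw [sq_abs]
  exact Finset.single_le_sum (f := fun j => (k j : ℝ) ^ 2) (fun i _ => sq_nonneg _)
    (Finset.mem_univ j)

theorem supp_bounds (hG : Pk J G) {e : Fin 2} {n : ℕ} {k : K3} (hk : G e n k ≠ 0) :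
    (H459R3.NS.N k : ℝ) ≤ 3 * Mn 8 n ∧ (Mn 8 n : ℝ) ≤ 2 * H459R3.NS.N k := by
  have h1 := hG.near e n k hk
  have h2 := hG.J2 n
  have h3 := M8 n
  obtain ⟨h4, h5⟩ := len_qq e n
  have h6 : 7 * ((Mn 8 n : ℝ) * ((J n : ℝ) - 1)) ≤ (Mn 8 n : ℝ) ^ 2 := by nlinarith
  have h7 := abs_le.1 (h1.trans h6)
  have h8 := N_le_len k
  have h9 := len_le_N k
  have h0 := len_nonneg k
  constructor
  · have : len k ≤ 3 * Mn 8 n := by
      apply le_of_sq_le_sq' _ (by positivity)
      nlinarith [h7.2]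
    linarith
  · have : (Mn 8 n : ℝ) ≤ len k := by
      apply le_of_sq_le_sq' _ h0
      nlinarith [h7.1]
    linarith
where
  le_of_sq_le_sq' {x y : ℝ} (h : x ^ 2 ≤ y ^ 2) (hy : 0 ≤ y) : x ≤ y := by
    by_contra hc
    push Not at hc
    nlinarith

theorem G_sum (hG : Pk J G) (e : Fin 2) (n : ℕ) (c : K3 → ℝ) :
    Summable fun k => |G e n k| * c k := by
  refine summable_of_finite_support ((hG.fin e n).subset fun k hk => ?_)
  intro h0
  exact hk (by simp [h0])

/-- weighted sums over a packet -/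
theorem G_le (hG : Pk J G) (e : Fin 2) (n : ℕ) (c : K3 → ℝ) {B : ℝ} (hB : 0 ≤ B)
    (hc : ∀ k, G e n k ≠ 0 → c k ≤ B) : ∑' k, |G e n k| * c k ≤ 3 * J n * B := by
  have h1 : ∑' k, |G e n k| * c k ≤ ∑' k, |G e n k| * B := by
    refine (G_sum hG e n c).tsum_le_tsum (fun k => ?_) (G_sum hG e n fun _ => B)
    by_cases hk : G e n k = 0
    · simp [hk]
    · exact mul_le_mul_of_nonneg_left (hc k hk) (abs_nonneg _)
  rw [tsum_mul_right] at h1
  exact h1.trans (mul_le_mul_of_nonneg_right (hG.l1 e n) hB)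

theorem am_rd (hG : Pk J G) (hu : SPV u) (e : Fin 2) : Rd 8 fun n => am (G e n) u := by
  intro s
  obtain ⟨C, hC0, hC⟩ := un_decay hu (s + 1)
  refine ⟨3 * (2 ^ (s + 1) * C), by positivity, fun n => ?_⟩
  have hM := M8 n
  have hM0 : (0 : ℝ) < Mn 8 n := by linarith
  have h1 : |am (G e n) u| ≤ ∑' k, |G e n k| * un u k := by
    unfold am
    have hs : Summable fun k => ‖G e n k * (fr (fun x => u x 2) k).re‖ := by
      refine (G_sum hG e n fun k => |(fr (fun x => u x 2) k).re|).congr fun k => ?_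
      rw [norm_mul, Real.norm_eq_abs, Real.norm_eq_abs]
    have h2 := norm_tsum_le_tsum_norm hs
    rw [Real.norm_eq_abs] at h2
    refine h2.trans (hs.tsum_le_tsum (fun k => ?_) (G_sum hG e n _))
    rw [norm_mul, Real.norm_eq_abs, Real.norm_eq_abs]
    exact mul_le_mul_of_nonneg_left ((Complex.abs_re_le_norm _).trans (fr_le_un _ _ _))
      (abs_nonneg _)
  have h3 : ∑' k, |G e n k| * un u k ≤ 3 * J n * (2 ^ (s + 1) * C / (Mn 8 n : ℝ) ^ (s + 1)) := by
    refine G_le hG e n _ (by positivity) fun k hk => ?_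
    rw [le_div_iff₀ (by positivity)]
    have h4 := (supp_bounds hG hk).2
    calc un u k * (Mn 8 n : ℝ) ^ (s + 1) ≤ un u k * (2 * (H459R3.NS.N k : ℝ)) ^ (s + 1) :=
          mul_le_mul_of_nonneg_left (pow_le_pow_left₀ hM0.le h4 _) (un_nonneg _ _)
      _ = 2 ^ (s + 1) * ((H459R3.NS.N k : ℝ) ^ (s + 1) * un u k) := by rw [mul_pow]; ring
      _ ≤ 2 ^ (s + 1) * C := mul_le_mul_of_nonneg_left (hC k) (by positivity)
  have h5 := J_le hG n
  calc (Mn 8 n : ℝ) ^ s * |am (G e n) u|
      ≤ (Mn 8 n : ℝ) ^ s * (3 * J n * (2 ^ (s + 1) * C / (Mn 8 n : ℝ) ^ (s + 1))) :=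
        mul_le_mul_of_nonneg_left (h1.trans h3) (by positivity)
    _ ≤ (Mn 8 n : ℝ) ^ s * (3 * Mn 8 n * (2 ^ (s + 1) * C / (Mn 8 n : ℝ) ^ (s + 1))) := by
        apply mul_le_mul_of_nonneg_left _ (by positivity)
        apply mul_le_mul_of_nonneg_right _ (by positivity)
        linarith
    _ = 3 * (2 ^ (s + 1) * C) := by
        rw [pow_succ (Mn 8 n : ℝ) s]
        field_simp

theorem cXp_rd (hG : Pk J G) (h : Ga 8 α μ) (hu : SPV u) (hv : SPV v) :
    Rd 8 (cXp G α u v) := by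
  have h1 := ((am_rd hG hu 1).mul (am_rd hG hv 1)).coef zero_le_one h.a3
  exact h1.sh.sub h1

theorem cYp_rd (hG : Pk J G) (h : Ga 8 α μ) (hu : SPV u) (hv : SPV v) :
    Rd 8 (cYp G α μ u v) := by
  have h1 := ((am_rd hG hu 1).mul (am_rd hG hv 1)).coef zero_le_one h.m3
  have h2 := ((am_rd hG hu 1).mul ((am_rd hG hv 0).sub (am_rd hG hv 0).succ)).coef zero_le_one h.a3
  have h3 := ((am_rd hG hu 1).mul (am_rd hG hv 1).succ).coef zero_le_one h.m3
  exact (h2.add h1.sh).sub h3

/-- the coefficients of the series -/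
noncomputable def ww (G : Fin 2 → ℕ → K3 → ℝ) (a b : ℕ → ℝ) (p : ℕ × K3) : ℝ :=
  a p.1 * G 0 p.1 p.2 + b p.1 * G 1 p.1 p.2

theorem ww_rw (hG : Pk J G) {a b : ℕ → ℝ} (ha : Rd 8 a) (hb : Rd 8 b) :
    Rw (ww G a b) Prod.snd := by
  intro m
  have h0 : ∀ p : ℕ × K3, 0 ≤ (H459R3.NS.N p.2 : ℝ) ^ m * |ww G a b p| := fun p => by positivity
  have hfib : ∀ n, Summable fun k : K3 => (H459R3.NS.N k : ℝ) ^ m * |ww G a b (n, k)| := by
    intro n
    refine summable_of_finite_support (((hG.fin 0 n).union (hG.fin 1 n)).subset fun k hk => ?_)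
    by_contra hc
    simp only [mem_union, mem_setOf_eq, not_or, not_not] at hc
    exact hk (by simp [ww, hc.1, hc.2])
  refine (summable_prod_of_nonneg h0).2 ⟨hfib, ?_⟩
  have hd : ∀ {c : ℕ → ℝ}, Rd 8 c → Summable fun n => (Mn 8 n : ℝ) ^ (m + 1) * |c n| := by
    intro c hc
    have h1 := (hc.coef (c := fun n => (Mn 8 n : ℝ) ^ (m + 1)) zero_le_one (q := m + 1)
      fun n => by rw [one_mul, abs_of_nonneg (by positivity)]).summable (by norm_num)
    refine h1.abs.congr fun n => ?_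
    rw [abs_mul, abs_of_nonneg (by positivity)]
  refine Summable.of_nonneg_of_le (fun n => tsum_nonneg fun k => h0 (n, k)) (fun n => ?_)
    (((hd ha).add (hd hb)).mul_left (3 * 3 ^ m))
  have hM := M8 n
  have hJ := J_le hG n
  have hJ0 : (0 : ℝ) ≤ J n := Nat.cast_nonneg _
  have e1 : ∀ e : Fin 2, ∑' k, |G e n k| * (H459R3.NS.N k : ℝ) ^ m
      ≤ 3 * Mn 8 n * (3 ^ m * (Mn 8 n : ℝ) ^ m) := by
    intro e
    refine (G_le hG e n _ (B := 3 ^ m * (Mn 8 n : ℝ) ^ m) (by positivity) fun k hk => ?_).trans ?_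
    · rw [← mul_pow]
      exact pow_le_pow_left₀ (Nat.cast_nonneg _) (supp_bounds hG hk).1 _
    · apply mul_le_mul_of_nonneg_right _ (by positivity)
      linarith
  have s0 := G_sum hG 0 n fun k => (H459R3.NS.N k : ℝ) ^ m
  have s1 := G_sum hG 1 n fun k => (H459R3.NS.N k : ℝ) ^ m
  have e2 : ∑' k : K3, (H459R3.NS.N k : ℝ) ^ m * |ww G a b (n, k)|
      ≤ ∑' k : K3, (|a n| * (|G 0 n k| * (H459R3.NS.N k : ℝ) ^ m)
        + |b n| * (|G 1 n k| * (H459R3.NS.N k : ℝ) ^ m)) := by
    refine (hfib n).tsum_le_tsum (fun k => ?_) ((s0.mul_left _).add (s1.mul_left _))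
    have h1 : |ww G a b (n, k)| ≤ |a n| * |G 0 n k| + |b n| * |G 1 n k| := by
      unfold ww
      refine (abs_add_le _ _).trans ?_
      rw [abs_mul, abs_mul]
    calc (H459R3.NS.N k : ℝ) ^ m * |ww G a b (n, k)|
        ≤ (H459R3.NS.N k : ℝ) ^ m * (|a n| * |G 0 n k| + |b n| * |G 1 n k|) :=
          mul_le_mul_of_nonneg_left h1 (by positivity)
      _ = _ := by ring
  rw [(s0.mul_left _).tsum_add (s1.mul_left _), tsum_mul_left, tsum_mul_left] at e2
  refine e2.trans ?_
  have f0 := mul_le_mul_of_nonneg_left (e1 0) (abs_nonneg (a n))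
  have f1 := mul_le_mul_of_nonneg_left (e1 1) (abs_nonneg (b n))
  calc _ ≤ |a n| * (3 * Mn 8 n * (3 ^ m * (Mn 8 n : ℝ) ^ m))
        + |b n| * (3 * Mn 8 n * (3 ^ m * (Mn 8 n : ℝ) ^ m)) := add_le_add f0 f1
    _ = _ := by rw [pow_succ]; ring

theorem G_rw (hG : Pk J G) (e : Fin 2) (n : ℕ) : Rw (G e n) id := by
  intro m
  refine (G_sum hG e n fun k => (H459R3.NS.N k : ℝ) ^ m).congr fun k => ?_
  simp only [id]
  ring

theorem Xf_eq (g : K3 → ℝ) : Xf g = Fc g id := rfl

theorem Xf_cont (hG : Pk J G) (e : Fin 2) (n : ℕ) : Continuous (Xf (G e n)) :=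
  (Fc_smooth (G_rw hG e n)).continuous

theorem kp_eq (hG : Pk J G) (h : Ga 8 α μ) (hu : SPV u) (hv : SPV v) :
    kp G α μ u v = Fc (ww G (cXp G α u v) (cYp G α μ u v)) Prod.snd := by
  funext x
  have hr := ww_rw hG (cXp_rd hG h hu hv) (cYp_rd hG h hu hv)
  have hs : Summable fun p : ℕ × K3 => ww G (cXp G α u v) (cYp G α μ u v) p
      * Real.cos (2 * Real.pi * ph p.2 x) :=
    Summable.of_norm_bounded (g := fun i => |ww G (cXp G α u v) (cYp G α μ u v) i|) hr.s0
      fun i => by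
        rw [norm_mul, Real.norm_eq_abs, Real.norm_eq_abs]
        exact (mul_le_mul_of_nonneg_left (Real.abs_cos_le_one _) (abs_nonneg _)).trans
          (by rw [mul_one])
  have hx : ∀ e n, Summable fun k => G e n k * Real.cos (2 * Real.pi * ph k x) := fun e n => by
    refine summable_of_finite_support ((hG.fin e n).subset fun k hk => ?_)
    intro h0
    exact hk (by simp [h0])
  unfold kp Fc
  rw [hs.tsum_prod]
  refine tsum_congr fun n => ?_
  unfold Xf
  rw [← tsum_mul_left, ← tsum_mul_left, ← ((hx 0 n).mul_left _).tsum_add ((hx 1 n).mul_left _)]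
  refine tsum_congr fun k => ?_
  unfold ww
  simp only
  ring

theorem kp_sp (hG : Pk J G) (h : Ga 8 α μ) (hu : SPV u) (hv : SPV v) : SP (kp G α μ u v) := by
  rw [kp_eq hG h hu hv]
  exact Fc_sp (ww_rw hG (cXp_rd hG h hu hv) (cYp_rd hG h hu hv))

theorem KP_spv (hG : Pk J G) (h : Ga 8 α μ) (hu : SPV u) (hv : SPV v) : SPV (KP G α μ u v) := by
  refine sp_spv fun i => ?_
  by_cases hi : i = 2
  · subst hi
    have : (fun x => KP G α μ u v x 2) = kp G α μ u v := by
      funext x; unfold KP; rw [if_pos rfl]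
    rw [this]; exact kp_sp hG h hu hv
  · have : (fun x => KP G α μ u v x i) = fun _ => 0 := by
      funext x; unfold KP; rw [if_neg hi]
    rw [this]; exact ⟨contDiff_const, fun i x => rfl⟩

theorem kp_test (hG : Pk J G) (h : Ga 8 α μ) (hu : SPV u) (hv : SPV v) {f : V → ℝ}
    (hf : Continuous f) :
    HasSum (fun n => cXp G α u v n * (∫ x in cube, Xf (G 0 n) x * f x)
      + cYp G α μ u v n * (∫ x in cube, Xf (G 1 n) x * f x))
      (∫ x in cube, kp G α μ u v x * f x) := by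
  have hr := ww_rw hG (cXp_rd hG h hu hv) (cYp_rd hG h hu hv)
  have h1 := Fc_test hr hf
  rw [← kp_eq hG h hu hv] at h1
  simp only [smul_eq_mul] at h1
  refine h1.prod_fiberwise fun n => ?_
  have g0 := (Fc_test (G_rw hG 0 n) hf).mul_left (cXp G α u v n)
  have g1 := (Fc_test (G_rw hG 1 n) hf).mul_left (cYp G α μ u v n)
  simp only [smul_eq_mul, ← Xf_eq] at g0 g1
  have g2 := g0.add g1
  have e : (fun k : K3 => ww G (cXp G α u v) (cYp G α μ u v) (n, k)
      * ∫ x in cube, Real.cos (2 * Real.pi * ph k x) * f x)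
      = fun k => cXp G α u v n * (G 0 n k * ∫ x in cube, Real.cos (2 * Real.pi * ph (id k) x) * f x)
        + cYp G α μ u v n * (G 1 n k * ∫ x in cube, Real.cos (2 * Real.pi * ph (id k) x) * f x) := by
    funext k
    unfold ww
    simp only [id]
    ring
  rw [e]
  exact g2

theorem kp_fr (hG : Pk J G) (h : Ga 8 α μ) (hu : SPV u) (hv : SPV v) (k : K3) :
    fr (kp G α μ u v) k
      = ((∑' n, (cXp G α u v n * G 0 n k + cYp G α μ u v n * G 1 n k) : ℝ) : ℂ) := by
  have hr := ww_rw hG (cXp_rd hG h hu hv) (cYp_rd hG h hu hv)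
  have h1 := Fc_fr hr k
  rw [← kp_eq hG h hu hv] at h1
  have h2 : HasSum (fun n => ((cXp G α u v n * G 0 n k + cYp G α μ u v n * G 1 n k : ℝ) : ℂ))
      (fr (kp G α μ u v) k) := by
    refine h1.prod_fiberwise fun n => ?_
    set a := ww G (cXp G α u v) (cYp G α μ u v) with ha
    have ev : a (n, -k) = a (n, k) := by
      simp only [ha, ww, hG.even]
    have g0 : HasSum (fun l : K3 => a (n, l) • (if l = k then (1 / 2 : ℂ) else 0))
        (a (n, k) • (1 / 2 : ℂ)) := by
      have := hasSum_single (f := fun l : K3 => a (n, l) • (if l = k then (1 / 2 : ℂ) else 0)) k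
        fun l hl => by rw [if_neg hl, smul_zero]
      simpa using this
    have g1 : HasSum (fun l : K3 => a (n, l) • (if l = -k then (1 / 2 : ℂ) else 0))
        (a (n, k) • (1 / 2 : ℂ)) := by
      have := hasSum_single (f := fun l : K3 => a (n, l) • (if l = -k then (1 / 2 : ℂ) else 0)) (-k)
        fun l hl => by rw [if_neg hl, smul_zero]
      simpa [ev] using this
    have g2 := g0.add g1
    have e : a (n, k) • (1 / 2 : ℂ) + a (n, k) • (1 / 2 : ℂ)
        = ((cXp G α u v n * G 0 n k + cYp G α μ u v n * G 1 n k : ℝ) : ℂ) := by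
      rw [← smul_add, add_halves, Complex.real_smul, mul_one]
      rfl
    rw [e] at g2
    simpa only [smul_add] using g2
  rw [Complex.ofReal_tsum]
  exact h2.tsum_eq.symm

theorem op : Pool.Agent.N977.P.S_OP := fun _J _G _α _μ hG h =>
  ⟨fun _u _v hu hv => KP_spv hG h hu hv, fun _u _v hu hv _f hf => kp_test hG h hu hv hf,
    fun _u _v hu hv k => kp_fr hG h hu hv k⟩

end Pool.Agent.N79.NSP
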